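import Mathlib

/-!
# Determinantal 2-hypertrees: definitions (MP_a0015d_pr)

Everything is written in tuple form: a configuration is a function `τ : E' n → Tri n`
(one ordered triple of vertices for every non-root edge); its weight is `(det (M τ))^2`.
Root vertex = 0.  `Tri n` = all ordered triples (degenerate ones have zero boundary, so
weight zero; the six orders of a triangle give the same row up to sign).
-/

set_option autoImplicit false

open Finset Matrix

namespace Pool.Agent.HT

/-- non-root edges (verbatim the index type of the frozen statement) -/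
abbrev E' (n : ℕ) : Type := {x : Fin n × Fin n // 0 < x.1.val ∧ x.1 < x.2}

/-- all edges of `K_n` -/
abbrev E (n : ℕ) : Type := {x : Fin n × Fin n // x.1 < x.2}

/-- ordered triples of vertices -/
abbrev Tri (n : ℕ) : Type := Fin n × Fin n × Fin n

/-- the 1-chain of the ordered pair `(a, b)` evaluated at `e` -/
def chi {n : ℕ} (a b : Fin n) (e : Fin n × Fin n) : ℤ :=
  (if e = (a, b) then 1 else 0) - (if e = (b, a) then 1 else 0)

/-- the boundary of the ordered triple `t`, evaluated at `e` -/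
def bd {n : ℕ} (t : Tri n) (e : Fin n × Fin n) : ℤ :=
  chi t.1 t.2.1 e + chi t.2.1 t.2.2 e + chi t.2.2 t.1 e

/-- the square matrix of a configuration (row `i` = boundary of `τ i`) -/
def M {n : ℕ} (τ : E' n → Tri n) : Matrix (E' n) (E' n) ℤ :=
  Matrix.of fun i e => bd (τ i) e.1

/-- the determinantal weight -/
noncomputable def wt {n : ℕ} (τ : E' n → Tri n) : ℝ := ((M τ).det : ℝ) ^ 2

/-- total mass -/
noncomputable def Z (n : ℕ) : ℝ := ∑ τ : E' n → Tri n, wt τ

open Classical in
/-- mass of a set of configurations -/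
noncomputable def mass {n : ℕ} (A : (E' n → Tri n) → Prop) : ℝ :=
  ∑ τ : E' n → Tri n, if A τ then wt τ else 0

/-- number of rows, `(n-1).choose 2` -/
def Nr (n : ℕ) : ℕ := Fintype.card (E' n)

/-- antisymmetric extension of a cochain on the non-root edges (zero at the root edges) -/
def tl {n : ℕ} {A : Type*} [AddCommGroup A] (f : E' n → A) (a b : Fin n) : A :=
  ∑ e : E' n, chi a b e.1 • f e

/-- coboundary of a function of ordered pairs -/
def cob {n : ℕ} {A : Type*} [AddCommGroup A] (g : Fin n → Fin n → A) (t : Tri n) : A :=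
  g t.1 t.2.1 + g t.2.1 t.2.2 + g t.2.2 t.1

/-- `f` is a cocycle on the rows of `τ` -/
def Cyc {n : ℕ} {A : Type*} [AddCommGroup A] (τ : E' n → Tri n) (f : E' n → A) : Prop :=
  ∀ i, cob (tl f) (τ i) = 0

lemma cob_tl_add {n : ℕ} {A : Type*} [AddCommGroup A] (f g : E' n → A) (t : Tri n) :
    cob (tl (f + g)) t = cob (tl f) t + cob (tl g) t := by
  simp only [cob, tl, Pi.add_apply, smul_add, Finset.sum_add_distrib]
  abel

lemma cob_tl_neg {n : ℕ} {A : Type*} [AddCommGroup A] (f : E' n → A) (t : Tri n) :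
    cob (tl (-f)) t = -cob (tl f) t := by
  simp only [cob, tl, Pi.neg_apply, smul_neg, Finset.sum_neg_distrib]
  abel

/-- the group `H^1(T; A)` as an additive subgroup (gauge fixed at the root) -/
def Kq {n : ℕ} (A : Type*) [AddCommGroup A] (τ : E' n → Tri n) : AddSubgroup (E' n → A) where
  carrier := {f | Cyc τ f}
  zero_mem' := by
    intro i
    simp [cob, tl]
  add_mem' := by
    intro a b ha hb i
    rw [cob_tl_add, ha i, hb i, add_zero]
  neg_mem' := by
    intro a ha i
    rw [cob_tl_neg, ha i, neg_zero]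

/-- `I - (1/6n) sum_t (1 - x_t) bd_t bd_t^T` on all edges -/
noncomputable def QQ {n : ℕ} (x : Tri n → ℝ) : Matrix (E n) (E n) ℝ :=
  1 - (1 / (6 * (n : ℝ))) • ∑ t : Tri n, (1 - x t) •
    Matrix.vecMulVec (fun e : E n => (bd t e.1 : ℝ)) (fun e : E n => (bd t e.1 : ℝ))

/-- symmetric nondegenerate predicate on ordered triples -/
def SymT {n : ℕ} (Y : Tri n → Prop) : Prop :=
  ∀ a b c : Fin n, Y (a, b, c) → Y (b, a, c) ∧ Y (b, c, a) ∧ a ≠ b

/-- the triple `t` has one of its three (cyclically oriented) sides in `B` -/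
def touch {n : ℕ} (t : Tri n) (B : Finset (Fin n × Fin n)) : Prop :=
  (t.1, t.2.1) ∈ B ∨ (t.2.1, t.2.2) ∈ B ∨ (t.2.2, t.1) ∈ B

open Classical in
/-- number of indices with a property -/
noncomputable def cnt {α : Type*} [Fintype α] (A : α → Prop) : ℕ := (univ.filter A).card

/-- `f` is close to a coboundary -/
def Small {n : ℕ} (q : ℕ) (ε0 : ℝ) (f : E' n → ZMod q) : Prop :=
  (cnt (fun t : Tri n => cob (tl f) t ≠ 0) : ℝ) ≤ ε0 * (n : ℝ) ^ 3

/-- `f` is quasirandom: `tr X^4 ≤ ε1 n^4` for `X = χ(f(u v))` -/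
def QR {n : ℕ} (q : ℕ) [NeZero q] (ε1 : ℝ) (f : E' n → ZMod q) : Prop :=
  ∑ a : Fin n, ∑ b : Fin n,
    ‖∑ c : Fin n, (ZMod.stdAddChar (tl f a c + tl f c b) : ℂ)‖ ^ 2 ≤ ε1 * (n : ℝ) ^ 4

/-- zero set of a group of cochains -/
def ZZ {n q : ℕ} (V : AddSubgroup (E' n → ZMod q)) (t : Tri n) : Prop :=
  ∀ f ∈ V, cob (tl f) t = 0

open Classical in
/-- bad ordered pairs of a group of cochains: more than `η n` common zeros over the pair -/
noncomputable def BB {n q : ℕ} (V : AddSubgroup (E' n → ZMod q)) (η : ℝ) :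
    Finset (Fin n × Fin n) :=
  univ.filter fun ab => η * (n : ℝ) < cnt (fun c : Fin n => ZZ V (ab.1, ab.2, c))

/-- there is a mod `q` cycle which is nonzero mod `p`, and `H^1(T; Z/q)` has at least `m`
elements -/
def AA {n : ℕ} (p q m : ℕ) (τ : E' n → Tri n) : Prop :=
  (∃ c : E' n → ℤ, (∃ i, ¬ (p : ℤ) ∣ c i) ∧ ∀ e, (q : ℤ) ∣ ∑ i, c i * M τ i e) ∧
    m ≤ Nat.card (Kq (ZMod q) τ)

end Pool.Agent.HT
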