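import Pool.Agent.Lib_helper6.HT.EXCH

namespace Pool.Agent.HT

alias exch_main := exch_main_pr

end Pool.Agent.HT
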