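import Pool.Agent.Lib_helper86.HT.G3

namespace Pool.Agent.HT

alias few_touch := few_touch_pr

end Pool.Agent.HT
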