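import Pool.Agent.Lib_helper5.HT.SM4

namespace Pool.Agent.HT

alias isolated_sum := isolated_sum_pr

end Pool.Agent.HT
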