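import Pool.Agent.Lib_helper59.HT.Defs

set_option autoImplicit false

open Finset Matrix

namespace Pool.Agent.HT

/-! ### definitions for the dense part (G2a) -/

/-- law of `f(u c) + f(c v)`, `c` uniform -/
noncomputable def nuf {n q : ℕ} (f : E' n → ZMod q) (u v : Fin n) (a : ZMod q) : ℝ :=
  (cnt (fun c : Fin n => tl f u c + tl f c v = a) : ℝ) / n

/-- law of `ρ i u - ρ i v`, `i` uniform -/
noncomputable def nur {n q m : ℕ} (ρ : Fin m → Fin n → ZMod q) (u v : Fin n) (a : ZMod q) : ℝ :=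
  (cnt (fun i : Fin m => ρ i u - ρ i v = a) : ℝ) / m

open Classical in
/-- indicator of `f(u v) = a` -/
noncomputable def indf {n q : ℕ} (f : E' n → ZMod q) (u v : Fin n) (a : ZMod q) : ℝ :=
  if tl f u v = a then 1 else 0

open Classical in
/-- antisymmetric extension of a family of laws on the non-root edges -/
noncomputable def muT {n q : ℕ} (μ : E' n → ZMod q → ℝ) (u v : Fin n) (a : ZMod q) : ℝ :=
  if h : 0 < u.val ∧ u < v then μ ⟨(u, v), h⟩ a
  else if h : 0 < v.val ∧ v < u then μ ⟨(v, u), h⟩ (-a)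
  else if a = 0 then 1 else 0

/-- closeness in cut norm -/
def CutClose {n q : ℕ} (F G : Fin n → Fin n → ZMod q → ℝ) (c : ℝ) : Prop :=
  ∀ (a : ZMod q) (A B : Finset (Fin n)), |∑ u ∈ A, ∑ v ∈ B, (F u v a - G u v a)| ≤ c

/-! ### definitions for the sparse part (G2b) -/

/-- `{u, v}` is an edge of `F` -/
def inF {n : ℕ} (F : Finset (E n)) (u v : Fin n) : Prop :=
  ∃ e ∈ F, e.1 = (u, v) ∨ e.1 = (v, u)

/-- degree in `F` -/
noncomputable def dg {n : ℕ} (F : Finset (E n)) (v : Fin n) : ℕ := cnt (fun u => inF F v u)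

/-- vertex-edge incidence -/
def inc {n : ℕ} (e : Fin n × Fin n) (v : Fin n) : ℤ :=
  (if v = e.2 then 1 else 0) - (if v = e.1 then 1 else 0)

/-- signed adjacency of two edges (0 on the diagonal) -/
def NN {n : ℕ} (e e' : Fin n × Fin n) : ℤ := if e = e' then 0 else ∑ v, inc e v * inc e' v

/-- signed Laplacian of `F` plus a field `h` -/
noncomputable def AF {n : ℕ} (F : Finset (E n)) (h : E n → ℝ) : Matrix F F ℝ :=
  Matrix.of fun e e' =>
    (if e = e' then h e.1 + ∑ e'' : F, |(NN e.1.1 e''.1.1 : ℝ)| else 0) - (NN e.1.1 e'.1.1 : ℝ)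

/-- Gram matrix of the incidence vectors of the edges of `F` -/
noncomputable def KF {n : ℕ} (F : Finset (E n)) : Matrix F F ℝ :=
  Matrix.of fun e e' => ∑ v, (inc e.1.1 v : ℝ) * (inc e'.1.1 v : ℝ)

open Classical in
/-- the `F`-block of `sum_{t not in Y} bd_t bd_t^T` -/
noncomputable def LF {n : ℕ} (F : Finset (E n)) (Y : Tri n → Prop) : Matrix F F ℝ :=
  Matrix.of fun e e' => ∑ t : Tri n, if Y t then 0 else (bd t e.1.1 : ℝ) * (bd t e'.1.1 : ℝ)

/-- exactly one of three -/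
def One3 (a b c : Prop) : Prop := (a ∧ ¬b ∧ ¬c) ∨ (¬a ∧ b ∧ ¬c) ∨ (¬a ∧ ¬b ∧ c)

/-- triples with exactly one side in `F` -/
def YI {n : ℕ} (F : Finset (E n)) (t : Tri n) : Prop :=
  One3 (inF F t.1 t.2.1) (inF F t.2.1 t.2.2) (inF F t.2.2 t.1)

def Y1 {n : ℕ} {L : Type} (H : Finset (Fin n)) (lab : Fin n → Fin n → L) (F : Finset (E n))
    (a b c : Fin n) : Prop :=
  a ∈ H ∧ b ∉ H ∧ c ∉ H ∧ b ≠ c ∧ (inF F b c ↔ lab a b = lab a c)

/-- forbidden triples of a configuration (heavy set `H`, labels at heavy vertices, light part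
`F` of the support) -/
def YY {n : ℕ} {L : Type} (H : Finset (Fin n)) (lab : Fin n → Fin n → L) (F : Finset (E n))
    (t : Tri n) : Prop :=
  (t.1 ∉ H ∧ t.2.1 ∉ H ∧ t.2.2 ∉ H ∧ YI F t) ∨
    Y1 H lab F t.1 t.2.1 t.2.2 ∨ Y1 H lab F t.2.1 t.2.2 t.1 ∨ Y1 H lab F t.2.2 t.1 t.2.1

open Classical in
/-- number of heavy vertices separating the ends of an edge outside `H` -/
noncomputable def hE {n : ℕ} {L : Type} (H : Finset (Fin n)) (lab : Fin n → Fin n → L)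
    (e : E n) : ℝ :=
  if e.1.1 ∉ H ∧ e.1.2 ∉ H then (cnt (fun v => v ∈ H ∧ lab v e.1.1 ≠ lab v e.1.2) : ℝ) else 0

/-- heavy configurations -/
def HeavyCfg {n : ℕ} (q : ℕ) (ε0 : ℝ) (H : Finset (Fin n)) (lab : Fin n → Fin n → ZMod q)
    (F : Finset (E n)) : Prop :=
  H.Nonempty ∧ (H.card : ℝ) ≤ 20 * ε0 * n ∧
  (∀ v ∈ H, ∀ c, (cnt (fun x => x ∉ H ∧ lab v x = c) : ℝ) ≤ 19 / 20 * n) ∧
  (∀ e ∈ F, e.1.1 ∉ H ∧ e.1.2 ∉ H) ∧ (F.card : ℝ) ≤ ε0 * (n : ℝ) ^ 2 ∧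
  ∀ v, (dg F v : ℝ) ≤ n / 20

/-! ### definitions for the cores (G1) -/

/-- underlying set of a triple -/
def tset {n : ℕ} (t : Tri n) : Finset (Fin n) := {t.1, t.2.1, t.2.2}

/-- closed family of triangles: every side of every member lies in another member -/
def Cl {n : ℕ} (C : Finset (Finset (Fin n))) : Prop :=
  C.Nonempty ∧ (∀ t ∈ C, t.card = 3) ∧
    ∀ t ∈ C, ∀ e ⊆ t, e.card = 2 → ∃ t' ∈ C, t' ≠ t ∧ e ⊆ t'

/-- minimal closed family -/
def MinCl {n : ℕ} (C : Finset (Finset (Fin n))) : Prop :=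
  Cl C ∧ ∀ C' ⊆ C, Cl C' → C' = C

/-- adjacency in the 1-skeleton -/
def sk {n : ℕ} (C : Finset (Finset (Fin n))) (u v : Fin n) : Prop :=
  u ≠ v ∧ ∃ t ∈ C, u ∈ t ∧ v ∈ t

end Pool.Agent.HT
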