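import Pool.Agent.Lib_helper59.HT.Defs2

set_option autoImplicit false

open Finset Matrix

namespace Pool.Agent.HT

section SM1

variable {n w : ℕ}

/-- slot of an ordered pair -/
def sm1_sl (y : Fin n × Fin n) (s : Bool) : Fin n := if s then y.2 else y.1

/-- twist of an ordered pair -/
def sm1_tw (y : Fin n × Fin n) (ε : Bool) : Fin n × Fin n := if ε then (y.2, y.1) else y

noncomputable def sm1_R (y z : Fin n × Fin n) : ℝ :=
  if (y.1 = z.1 ∧ y.2 ≠ z.2) ∨ (y.1 ≠ z.1 ∧ y.2 = z.2) then 1 else 0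

def sm1_sg (ε : Bool) : ℝ := if ε then -1 else 1

lemma sm1_sl_tw (y : Fin n × Fin n) (ε s : Bool) :
    sm1_sl (sm1_tw y ε) s = sm1_sl y (xor s ε) := by
  cases ε <;> cases s <;> simp [sm1_sl, sm1_tw]

lemma sm1_sg_xor (a b : Bool) : sm1_sg (xor a b) = sm1_sg a * sm1_sg b := by
  cases a <;> cases b <;> simp [sm1_sg]

lemma sm1_sg_sq (a : Bool) : sm1_sg a * sm1_sg a = 1 := by
  cases a <;> simp [sm1_sg]

noncomputable def sm1_row (i : Fin w) : Option (Fin w × Bool) → Fin w → ℝ
  | none => Pi.single i 1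
  | some (k, ε) => Pi.single i 1 - sm1_sg ε • (Pi.single k 1 : Fin w → ℝ)

noncomputable def sm1_W (h : Fin n × Fin n → ℝ) (y : Fin w → Fin n × Fin n) (i : Fin w) :
    Option (Fin w × Bool) → ℝ
  | none => h (y i)
  | some (k, ε) => sm1_R (y i) (sm1_tw (y k) ε)

noncomputable def sm1_D (φ : Fin w → Option (Fin w × Bool)) : Matrix (Fin w) (Fin w) ℝ :=
  Matrix.of fun i => sm1_row i (φ i)

noncomputable def sm1_A (h : Fin n × Fin n → ℝ) (y : Fin w → Fin n × Fin n) :
    Matrix (Fin w) (Fin w) ℝ :=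
  Matrix.of fun i => ∑ o, sm1_W h y i o • sm1_row i o

/-- general expansion in rows -/
lemma sm1_expand (c : Fin w → Option (Fin w × Bool) → ℝ) :
    (Matrix.of fun i => ∑ o, c i o • sm1_row i o).det =
      ∑ φ : Fin w → Option (Fin w × Bool), (∏ i, c i (φ i)) * (sm1_D φ).det := by
  have h1 : (Matrix.of fun i => ∑ o, c i o • sm1_row i o).det =
      Matrix.detRowAlternating (R := ℝ) (fun i => ∑ o, c i o • sm1_row i o) := rfl
  rw [h1]
  have h2 := (Matrix.detRowAlternating (R := ℝ) (n := Fin w)).toMultilinearMap.map_sum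
    (fun i o => c i o • sm1_row i o)
  simp only [AlternatingMap.coe_multilinearMap] at h2
  rw [h2]
  refine Finset.sum_congr rfl fun φ _ => ?_
  have h3 := (Matrix.detRowAlternating (R := ℝ) (n := Fin w)).toMultilinearMap.map_smul_univ
    (fun i => c i (φ i)) (fun i => sm1_row i (φ i))
  simp only [AlternatingMap.coe_multilinearMap] at h3
  rw [h3]
  rfl

/-- nonnegativity of the elementary determinants -/
lemma sm1_D_nonneg (φ : Fin w → Option (Fin w × Bool)) : 0 ≤ (sm1_D φ).det := by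
  -- S : rows sg ε • e_k
  let S : Matrix (Fin w) (Fin w) ℝ := Matrix.of fun i => match φ i with
    | none => (0 : Fin w → ℝ)
    | some (k, ε) => sm1_sg ε • (Pi.single k 1 : Fin w → ℝ)
  have hD : sm1_D φ = 1 - (1 : ℝ) • S := by
    ext i j
    simp only [sm1_D, S, Matrix.of_apply, Matrix.sub_apply, Matrix.smul_apply]
    rcases hφ : φ i with _ | ⟨k, ε⟩
    · simp [sm1_row, Matrix.one_apply, Pi.single_apply, eq_comm]
    · simp [sm1_row, Matrix.one_apply, Pi.single_apply, eq_comm]
  have hcont : Continuous fun t : ℝ => (1 - t • S).det := by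
    apply Continuous.matrix_det
    fun_prop
  have hne : ∀ t : ℝ, 0 ≤ t → t < 1 → (1 - t • S).det ≠ 0 := by
    intro t ht0 ht1
    apply det_ne_zero_of_sum_row_lt_diag
    intro i
    rcases hφ : φ i with _ | ⟨k, ε⟩
    · have hS : ∀ j, S i j = 0 := by
        intro j; simp [S, hφ]
      have : ∑ j ∈ Finset.univ.erase i, ‖(1 - t • S) i j‖ = 0 := by
        apply Finset.sum_eq_zero
        intro j hj
        have hji : i ≠ j := (Finset.ne_of_mem_erase hj).symm
        simp [Matrix.sub_apply, Matrix.one_apply, hji, hS]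
      rw [this]
      simp [Matrix.sub_apply, hS]
    · have hS : ∀ j, S i j = if j = k then sm1_sg ε else 0 := by
        intro j; simp [S, hφ, Pi.single_apply]
      have hsg : |sm1_sg ε| = 1 := by cases ε <;> simp [sm1_sg]
      by_cases hki : k = i
      · have : ∑ j ∈ Finset.univ.erase i, ‖(1 - t • S) i j‖ = 0 := by
          apply Finset.sum_eq_zero
          intro j hj
          have hji : i ≠ j := (Finset.ne_of_mem_erase hj).symm
          simp [Matrix.sub_apply, Matrix.one_apply, hji, hS, hki, Ne.symm hji]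
        rw [this]
        have : (1 - t • S) i i = 1 - t * sm1_sg ε := by
          simp [Matrix.sub_apply, hS, hki]
        rw [this]
        rw [norm_pos_iff]
        have : t * sm1_sg ε < 1 := by
          cases ε <;> simp [sm1_sg] <;> linarith
        linarith
      · have : ∑ j ∈ Finset.univ.erase i, ‖(1 - t • S) i j‖ = t := by
          rw [Finset.sum_eq_single k]
          · have hik : i ≠ k := fun h => hki h.symm
            simp [Matrix.sub_apply, Matrix.one_apply, hik, hS, hsg, abs_of_nonneg ht0]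
          · intro j hj hjk
            have hji : i ≠ j := (Finset.ne_of_mem_erase hj).symm
            simp [Matrix.sub_apply, Matrix.one_apply, hji, hS, hjk]
          · intro hk
            exact absurd (Finset.mem_erase.mpr ⟨hki, Finset.mem_univ _⟩) hk
        rw [this]
        have hik : i ≠ k := fun h => hki h.symm
        simp [Matrix.sub_apply, hS, hik]
        exact ht1
  -- positivity on [0,1)
  have hpos : ∀ t : ℝ, 0 ≤ t → t < 1 → 0 < (1 - t • S).det := by
    intro t ht0 ht1
    by_contra hcon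
    push Not at hcon
    have h0 : (1 - (0 : ℝ) • S).det = 1 := by simp
    have hmem : (0 : ℝ) ∈ Set.Icc ((1 - t • S).det) ((1 - (0 : ℝ) • S).det) :=
      ⟨hcon, by rw [h0]; norm_num⟩
    have := intermediate_value_Icc' ht0 (hcont.continuousOn (s := Set.Icc 0 t)) hmem
    obtain ⟨u, hu, hu0⟩ := this
    exact hne u hu.1 (lt_of_le_of_lt hu.2 ht1) hu0
  rw [hD]
  have hclos : (1 : ℝ) ∈ closure (Set.Ico (0 : ℝ) 1) := by
    rw [closure_Ico (by norm_num : (0 : ℝ) ≠ 1)]
    exact ⟨by norm_num, le_rfl⟩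
  have hsub : closure (Set.Ico (0 : ℝ) 1) ⊆ {t : ℝ | 0 ≤ (1 - t • S).det} := by
    apply closure_minimal
    · intro t ht
      exact (hpos t ht.1 ht.2).le
    · exact isClosed_le continuous_const hcont
  exact hsub hclos

/-- constants -/
noncomputable def sm1_c (h : Fin n × Fin n → ℝ) : Option (Fin w × Bool) → ℝ
  | none => ∑ z, h z
  | some _ => 2 * n

/-- local factor with a chosen agreeing slot -/
noncomputable def sm1_W' (h : Fin n × Fin n → ℝ) (b : Fin w → Bool)
    (y : Fin w → Fin n × Fin n) (i : Fin w) : Option (Fin w × Bool) → ℝ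
  | none => h (y i) / 2
  | some (k, ε) => if sm1_sl (y i) (b i) = sm1_sl (y k) (xor (b i) ε) then 1 else 0

def sm1_Sol (φ : Fin w → Option (Fin w × Bool)) (b : Fin w → Bool)
    (y : Fin w → Fin n × Fin n) : Prop :=
  ∀ i k ε, φ i = some (k, ε) → sm1_sl (y i) (b i) = sm1_sl (y k) (xor (b i) ε)

noncomputable def sm1_T (φ : Fin w → Option (Fin w × Bool)) (b : Fin w → Bool)
    (y : Fin w → Fin n × Fin n) (i : Fin w) : Fin n × Fin n :=
  match φ i with
  | none => y i
  | some _ => (sm1_sl (y i) (!b i), sm1_sl (y i) (!b i))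

noncomputable def sm1_g (h : Fin n × Fin n → ℝ) (φ : Fin w → Option (Fin w × Bool))
    (i : Fin w) (z : Fin n × Fin n) : ℝ :=
  match φ i with
  | none => h z / 2
  | some _ => if z.1 = z.2 then 1 else 0

lemma sm1_sl_ext (y y' : Fin n × Fin n) (b : Bool) (h1 : sm1_sl y b = sm1_sl y' b)
    (h2 : sm1_sl y (!b) = sm1_sl y' (!b)) : y = y' := by
  cases b
  · simp [sm1_sl] at h1 h2
    exact Prod.ext h1 h2
  · simp [sm1_sl] at h1 h2
    exact Prod.ext h2 h1

/-- injectivity of the encoding -/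
lemma sm1_inj (φ : Fin w → Option (Fin w × Bool)) (b : Fin w → Bool)
    (hd : (sm1_D φ).det ≠ 0) (y y' : Fin w → Fin n × Fin n)
    (hy : sm1_Sol φ b y) (hy' : sm1_Sol φ b y') (hT : sm1_T φ b y = sm1_T φ b y') : y = y' := by
  classical
  by_contra hne
  apply hd
  -- roots agree, free slots agree
  have hroot : ∀ i, φ i = none → y i = y' i := by
    intro i hi
    have := congrFun hT i
    simpa [sm1_T, hi] using this
  have hfree : ∀ i k ε, φ i = some (k, ε) → sm1_sl (y i) (!b i) = sm1_sl (y' i) (!b i) := by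
    intro i k ε hi
    have := congrFun hT i
    simp only [sm1_T, hi] at this
    exact (Prod.ext_iff.mp this).1
  let J : Fin w → Prop := fun i => sm1_sl (y i) (b i) ≠ sm1_sl (y' i) (b i)
  have hJne : ∃ i, J i := by
    by_contra hno
    push Not at hno
    apply hne
    funext i
    rcases hi : φ i with _ | ⟨k, ε⟩
    · exact hroot i hi
    · refine sm1_sl_ext _ _ (b i) ?_ (hfree i k ε hi)
      by_contra hcon
      exact hno i hcon
  have hJsome : ∀ i, J i → ∃ k ε, φ i = some (k, ε) ∧ J k ∧ b k = xor (b i) ε := by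
    intro i hi
    rcases hφ : φ i with _ | ⟨k, ε⟩
    · exact absurd (by rw [hroot i hφ]) hi
    · refine ⟨k, ε, rfl, ?_⟩
      have e1 := hy i k ε hφ
      have e2 := hy' i k ε hφ
      have hne2 : sm1_sl (y k) (xor (b i) ε) ≠ sm1_sl (y' k) (xor (b i) ε) := by
        rw [← e1, ← e2]; exact hi
      have hbk : b k = xor (b i) ε := by
        rcases hk : φ k with _ | ⟨k', ε'⟩
        · exact absurd (by rw [hroot k hk]) hne2
        · by_contra hb
          have : xor (b i) ε = !b k := by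
            cases hx : (xor (b i) ε) <;> cases hx2 : b k <;> simp_all
          rw [this] at hne2
          exact hne2 (hfree k k' ε' hk)
      refine ⟨?_, hbk⟩
      show sm1_sl (y k) (b k) ≠ sm1_sl (y' k) (b k)
      rw [hbk]; exact hne2
  -- block triangular
  have hblock := Matrix.twoBlockTriangular_det (sm1_D φ) (fun i => ¬ J i) (by
    intro i hi j hj
    simp only [not_not] at hi
    obtain ⟨k, ε, hφ, hk, -⟩ := hJsome i hi
    have hji : j ≠ i := fun h => hj (h ▸ hi)
    have hjk : j ≠ k := fun h => hj (h ▸ hk)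
    simp [sm1_D, hφ, sm1_row, Pi.single_apply, hji, hjk])
  rw [hblock]
  have hzero : ((sm1_D φ).toSquareBlockProp fun i => ¬ ¬ J i).det = 0 := by
    apply Matrix.exists_mulVec_eq_zero_iff.mp
    refine ⟨fun i => sm1_sg (b i.1), ?_, ?_⟩
    · intro h0
      obtain ⟨i, hi⟩ := hJne
      have := congrFun h0 ⟨i, not_not.mpr hi⟩
      simp only [Pi.zero_apply] at this
      cases hb : b i <;> simp [hb, sm1_sg] at this
    · funext i
      obtain ⟨k, ε, hφ, hk, hbk⟩ := hJsome i.1 (not_not.mp i.2)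
      have hrow : ∀ j : {j // ¬ ¬ J j}, ((sm1_D φ).toSquareBlockProp fun i => ¬ ¬ J i) i j =
          (if j = i then 1 else 0) - sm1_sg ε * (if j = ⟨k, not_not.mpr hk⟩ then 1 else 0) := by
        intro j
        have e1 : (j.1 = i.1) = (j = i) := by simp [Subtype.ext_iff]
        have e2 : (j.1 = k) = (j = ⟨k, not_not.mpr hk⟩) := by simp [Subtype.ext_iff]
        simp only [Matrix.toSquareBlockProp, Matrix.of_apply, Matrix.toBlock_apply, sm1_D, hφ,
          sm1_row, Pi.sub_apply, Pi.smul_apply, Pi.single_apply, smul_eq_mul]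
        simp only [e1, e2]
      simp only [Matrix.mulVec, dotProduct, hrow, sub_mul, Finset.sum_sub_distrib, Pi.zero_apply,
        ite_mul, one_mul, zero_mul, Finset.sum_ite_eq', Finset.mem_univ, if_true, mul_assoc,
        ← Finset.mul_sum]
      rw [hbk, sm1_sg_xor]
      have := sm1_sg_sq ε
      linear_combination (-(sm1_sg (b i.1))) * this
  rw [hzero, mul_zero]

lemma sm1_gamma (h : Fin n × Fin n → ℝ) (hh : ∀ z, 0 ≤ h z)
    (φ : Fin w → Option (Fin w × Bool)) (hd : (sm1_D φ).det ≠ 0) :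
    ∑ y : Fin w → Fin n × Fin n, ∏ i, sm1_W h y i (φ i) ≤ ∏ i, sm1_c (w := w) h (φ i) := by
  classical
  have hW'nn : ∀ b y i, 0 ≤ sm1_W' h b y i (φ i) := by
    intro b y i
    rcases hφ : φ i with _ | ⟨k, ε⟩
    · simp only [sm1_W']; have := hh (y i); linarith
    · simp only [sm1_W']; split_ifs <;> norm_num
  have hWnn : ∀ y i, 0 ≤ sm1_W h y i (φ i) := by
    intro y i
    rcases hφ : φ i with _ | ⟨k, ε⟩
    · simp only [sm1_W]; exact hh (y i)
    · simp only [sm1_W, sm1_R]; split_ifs <;> norm_num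
  have hgnn : ∀ i z, 0 ≤ sm1_g h φ i z := by
    intro i z
    unfold sm1_g
    rcases hφ : φ i with _ | ⟨k, ε⟩
    · simp only; have := hh z; linarith
    · simp only; split_ifs <;> norm_num
  -- step 1
  have h1 : ∀ y : Fin w → Fin n × Fin n, ∏ i, sm1_W h y i (φ i) ≤
      ∑ b : Fin w → Bool, ∏ i, sm1_W' h b y i (φ i) := by
    intro y
    have e : ∑ b : Fin w → Bool, ∏ i, sm1_W' h b y i (φ i) =
        ∏ i, ∑ s : Bool, sm1_W' h (fun _ => s) y i (φ i) := by
      rw [Finset.prod_univ_sum]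
      simp only [Fintype.piFinset_univ]
      refine Finset.sum_congr rfl fun b _ => Finset.prod_congr rfl fun i _ => ?_
      rcases hφ : φ i with _ | ⟨k, ε⟩ <;> simp [sm1_W']
    rw [e]
    apply Finset.prod_le_prod
    · intro i _; exact hWnn y i
    · intro i _
      rcases hφ : φ i with _ | ⟨k, ε⟩
      · simp only [sm1_W, sm1_W', Fintype.sum_bool]
        linarith
      · simp only [sm1_W, sm1_W', Fintype.sum_bool]
        rw [← sm1_sl_tw, ← sm1_sl_tw]
        simp only [sm1_R, sm1_sl]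
        split_ifs <;> simp_all
  -- step 2
  have h2 : ∀ b : Fin w → Bool, ∑ y : Fin w → Fin n × Fin n, ∏ i, sm1_W' h b y i (φ i) ≤
      ∏ i, (sm1_c (w := w) h (φ i) / 2) := by
    intro b
    have e1 : ∀ y : Fin w → Fin n × Fin n, ∏ i, sm1_W' h b y i (φ i) =
        if sm1_Sol φ b y then ∏ i, sm1_g h φ i (sm1_T φ b y i) else 0 := by
      intro y
      split_ifs with hS
      · refine Finset.prod_congr rfl fun i _ => ?_
        rcases hφ : φ i with _ | ⟨k, ε⟩
        · simp [sm1_W', sm1_g, sm1_T, hφ]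
        · simp [sm1_W', sm1_g, sm1_T, hφ, hS i k ε hφ]
      · unfold sm1_Sol at hS
        push Not at hS
        obtain ⟨i, k, ε, hφ, hne⟩ := hS
        apply Finset.prod_eq_zero (Finset.mem_univ i)
        simp [sm1_W', hφ, hne]
    simp only [e1]
    rw [← Finset.sum_filter]
    have e2 : ∏ i, (sm1_c (w := w) h (φ i) / 2) =
        ∑ z : Fin w → Fin n × Fin n, ∏ i, sm1_g h φ i (z i) := by
      rw [← Fintype.piFinset_univ, ← Finset.prod_univ_sum]
      refine Finset.prod_congr rfl fun i _ => ?_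
      rcases hφ : φ i with _ | ⟨k, ε⟩
      · simp [sm1_c, sm1_g, hφ, Finset.sum_div]
      · simp only [sm1_c, sm1_g, hφ]
        rw [Fintype.sum_prod_type]
        simp
    rw [e2]
    have hinj : Set.InjOn (sm1_T φ b) (((Finset.univ : Finset (Fin w → Fin n × Fin n)).filter
        (fun y => sm1_Sol φ b y) : Finset _) : Set (Fin w → Fin n × Fin n)) := by
      intro y hy y' hy' hT
      simp only [Finset.coe_filter, Finset.mem_univ, true_and, Set.mem_setOf_eq] at hy hy'
      exact sm1_inj φ b hd y y' hy hy' hT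
    rw [← Finset.sum_image (f := fun z : Fin w → Fin n × Fin n => ∏ i, sm1_g h φ i (z i)) hinj]
    apply Finset.sum_le_sum_of_subset_of_nonneg (Finset.subset_univ _)
    intro z _ _
    exact Finset.prod_nonneg fun i _ => hgnn i (z i)
  calc ∑ y : Fin w → Fin n × Fin n, ∏ i, sm1_W h y i (φ i)
      ≤ ∑ y : Fin w → Fin n × Fin n, ∑ b : Fin w → Bool, ∏ i, sm1_W' h b y i (φ i) :=
        Finset.sum_le_sum fun y _ => h1 y
    _ = ∑ b : Fin w → Bool, ∑ y : Fin w → Fin n × Fin n, ∏ i, sm1_W' h b y i (φ i) :=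
        Finset.sum_comm
    _ ≤ ∑ b : Fin w → Bool, ∏ i, (sm1_c (w := w) h (φ i) / 2) :=
        Finset.sum_le_sum fun b _ => h2 b
    _ = ∏ i, sm1_c (w := w) h (φ i) := by
        rw [Finset.sum_const, Finset.prod_div_distrib]
        simp
        field_simp

/-- the sum over all lifts -/
lemma sm1_total (h : Fin n × Fin n → ℝ) (hh : ∀ z, 0 ≤ h z) :
    ∑ y : Fin w → Fin n × Fin n, (sm1_A h y).det ≤ (∑ z, h z + 4 * n * w) ^ w := by
  have e1 : ∀ y : Fin w → Fin n × Fin n, (sm1_A h y).det =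
      ∑ φ : Fin w → Option (Fin w × Bool), (∏ i, sm1_W h y i (φ i)) * (sm1_D φ).det :=
    fun y => sm1_expand (fun i o => sm1_W h y i o)
  have e2 : (∑ z, h z + 4 * n * w) ^ w =
      ∑ φ : Fin w → Option (Fin w × Bool), (∏ i, sm1_c (w := w) h (φ i)) * (sm1_D φ).det := by
    rw [← sm1_expand (fun _ o => sm1_c (w := w) h o)]
    have : (Matrix.of fun i => ∑ o, sm1_c (w := w) h o • sm1_row i o) =
        Matrix.diagonal (fun _ : Fin w => (∑ z, h z + 4 * n * w)) := by
      ext i j
      have h3 : (Matrix.of fun i => ∑ o, sm1_c (w := w) h o • sm1_row i o) i j =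
          ∑ o, sm1_c (w := w) h o * sm1_row i o j := by
        simp [Matrix.of_apply, Finset.sum_apply]
      rw [h3, Fintype.sum_option, Fintype.sum_prod_type]
      have h4 : ∀ k : Fin w, ∑ ε : Bool, sm1_c (w := w) h (some (k, ε)) *
          sm1_row i (some (k, ε)) j = 4 * n * (Pi.single i 1 : Fin w → ℝ) j := by
        intro k
        rw [Fintype.sum_bool]
        simp only [sm1_c, sm1_row, sm1_sg, Pi.sub_apply, Pi.smul_apply, smul_eq_mul, if_true]
        simp
        ring
      simp only [h4, Finset.sum_const, Finset.card_univ, Fintype.card_fin, nsmul_eq_mul]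
      simp only [sm1_c, sm1_row, Matrix.diagonal_apply, Pi.single_apply]
      by_cases hij : i = j
      · subst hij
        simp
        ring
      · have hji : ¬ j = i := fun h => hij h.symm
        simp [hij, hji]
    rw [this, Matrix.det_diagonal]
    simp
  simp only [e1]
  rw [Finset.sum_comm, e2]
  apply Finset.sum_le_sum
  intro φ _
  rw [← Finset.sum_mul]
  by_cases hd : (sm1_D φ).det = 0
  · simp [hd]
  · exact mul_le_mul_of_nonneg_right (sm1_gamma h hh φ hd) (sm1_D_nonneg φ)

lemma sm1_A_nonneg (h : Fin n × Fin n → ℝ) (hh : ∀ z, 0 ≤ h z) (y : Fin w → Fin n × Fin n) :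
    0 ≤ (sm1_A h y).det := by
  have e1 : (sm1_A h y).det =
      ∑ φ : Fin w → Option (Fin w × Bool), (∏ i, sm1_W h y i (φ i)) * (sm1_D φ).det :=
    sm1_expand (fun i o => sm1_W h y i o)
  rw [e1]
  apply Finset.sum_nonneg
  intro φ _
  apply mul_nonneg _ (sm1_D_nonneg φ)
  apply Finset.prod_nonneg
  intro i _
  rcases hφ : φ i with _ | ⟨k, ε⟩
  · simp only [sm1_W]; exact hh (y i)
  · simp only [sm1_W, sm1_R]; split_ifs <;> norm_num

/-- the field on ordered pairs -/
noncomputable def sm1_h (h : E n → ℝ) (z : Fin n × Fin n) : ℝ :=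
  if hz : z.1 < z.2 then h ⟨z, hz⟩ else if hz : z.2 < z.1 then h ⟨(z.2, z.1), hz⟩ else 0

lemma sm1_h_tw (h : E n → ℝ) (e : E n) (s : Bool) : sm1_h h (sm1_tw e.1 s) = h e := by
  have he := e.2
  cases s
  · simp [sm1_tw, sm1_h, he]
  · have : ¬ e.1.2 < e.1.1 := not_lt.mpr he.le
    simp [sm1_tw, sm1_h, he, this]

lemma sm1_sum_h (h : E n → ℝ) : ∑ z, sm1_h h z = 2 * ∑ e, h e := by
  classical
  have e1 : ∀ z : Fin n × Fin n, sm1_h h z =
      (if hz : z.1 < z.2 then h ⟨z, hz⟩ else 0) +
      (if hz : z.2 < z.1 then h ⟨(z.2, z.1), hz⟩ else 0) := by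
    intro z
    unfold sm1_h
    rcases lt_trichotomy z.1 z.2 with h1 | h1 | h1
    · simp [h1, not_lt.mpr h1.le]
    · simp [h1]
    · simp [h1, not_lt.mpr h1.le]
  simp only [e1, Finset.sum_add_distrib]
  have e2 : ∑ z : Fin n × Fin n, (if hz : z.1 < z.2 then h ⟨z, hz⟩ else 0) = ∑ e, h e := by
    rw [← Finset.sum_filter_add_sum_filter_not Finset.univ
      (fun z : Fin n × Fin n => z.1 < z.2)]
    rw [Finset.sum_subtype (p := fun z : Fin n × Fin n => z.1 < z.2) _ (by simp)]
    have : ∑ x ∈ Finset.univ.filter (fun z : Fin n × Fin n => ¬ z.1 < z.2),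
        (if hz : x.1 < x.2 then h ⟨x, hz⟩ else 0) = 0 := by
      apply Finset.sum_eq_zero
      intro x hx
      simp only [Finset.mem_filter, Finset.mem_univ, true_and] at hx
      simp [hx]
    rw [this, add_zero]
    refine Finset.sum_congr rfl fun e _ => ?_
    have := e.2
    simp [this]
  have e3 : ∑ z : Fin n × Fin n, (if hz : z.2 < z.1 then h ⟨(z.2, z.1), hz⟩ else 0) =
      ∑ z : Fin n × Fin n, (if hz : z.1 < z.2 then h ⟨z, hz⟩ else 0) := by
    apply Fintype.sum_equiv (Equiv.prodComm (Fin n) (Fin n))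
    intro z
    rfl
  rw [e3, e2]
  ring

lemma sm1_NN (e e' : E n) : (NN e.1 e'.1 : ℝ) = sm1_R e.1 e'.1 - sm1_R e.1 (e'.1.2, e'.1.1) ∧
    |(NN e.1 e'.1 : ℝ)| = sm1_R e.1 e'.1 + sm1_R e.1 (e'.1.2, e'.1.1) := by
  obtain ⟨⟨a, b⟩, hab⟩ := e
  obtain ⟨⟨c, d⟩, hcd⟩ := e'
  simp only at hab hcd
  have hsum : (∑ v, inc (a, b) v * inc (c, d) v : ℤ) =
      (if b = d then 1 else 0) - (if b = c then 1 else 0) - (if a = d then 1 else 0)
        + (if a = c then 1 else 0) := by
    simp only [inc, sub_mul, mul_sub, Finset.sum_sub_distrib, ite_mul, one_mul, zero_mul,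
      Finset.sum_ite_eq', Finset.sum_ite_eq, Finset.mem_univ, if_true]
    ring
  have hne1 : a ≠ b := hab.ne
  have hne2 : c ≠ d := hcd.ne
  unfold NN
  simp only [Prod.mk.injEq, sm1_R]
  rw [hsum]
  by_cases h1 : a = c
  · subst h1
    by_cases h2 : b = d
    · subst h2
      have : b ≠ a := hne1.symm
      simp [hne1, this]
    · have h3 : ¬ (b = a) := hne1.symm
      have h4 : ¬ (a = d) := hne2
      simp [h2, h3, h4]
  · by_cases h2 : b = d
    · subst h2
      have h3 : ¬ (a = b) := hne1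
      have h4 : ¬ (b = c) := hne2.symm
      simp [h1, h3, h4]
    · by_cases h3 : a = d
      · subst h3
        have h4 : ¬ (b = c) := by
          intro h; subst h; exact absurd hab (not_lt.mpr hcd.le)
        simp [h1, h2, h4]
      · by_cases h4 : b = c
        · subst h4
          simp [h1, h2, h3]
        · simp [h1, h2, h3, h4]

lemma sm1_R_sw (y z : Fin n × Fin n) : sm1_R (y.2, y.1) z = sm1_R y (z.2, z.1) := by
  unfold sm1_R
  simp only
  congr 1
  apply propext
  constructor
  · rintro (⟨h1, h2⟩ | ⟨h1, h2⟩)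
    · exact Or.inr ⟨h2, h1⟩
    · exact Or.inl ⟨h2, h1⟩
  · rintro (⟨h1, h2⟩ | ⟨h1, h2⟩)
    · exact Or.inr ⟨h2, h1⟩
    · exact Or.inl ⟨h2, h1⟩

lemma sm1_pair (e e' : E n) (s s' : Bool) :
    sm1_R (sm1_tw e.1 s) (sm1_tw (sm1_tw e'.1 s') false) -
      sm1_R (sm1_tw e.1 s) (sm1_tw (sm1_tw e'.1 s') true) =
      sm1_sg s * sm1_sg s' * (NN e.1 e'.1 : ℝ) ∧
    sm1_R (sm1_tw e.1 s) (sm1_tw (sm1_tw e'.1 s') false) +
      sm1_R (sm1_tw e.1 s) (sm1_tw (sm1_tw e'.1 s') true) = |(NN e.1 e'.1 : ℝ)| := by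
  obtain ⟨h1, h2⟩ := sm1_NN e e'
  rw [h2, h1]
  cases s <;> cases s' <;> simp [sm1_tw, sm1_sg, sm1_R_sw] <;> ring

lemma sm1_A_eq (h : E n → ℝ) (F : Finset (E n)) (σ : Fin w ≃ F) (s : Fin w → Bool) :
    (sm1_A (sm1_h h) (fun i => sm1_tw (σ i).1.1 (s i))).det = (AF F h).det := by
  have hM : sm1_A (sm1_h h) (fun i => sm1_tw (σ i).1.1 (s i)) =
      Matrix.diagonal (fun i => sm1_sg (s i)) * (AF F h).submatrix σ σ *
        Matrix.diagonal (fun i => sm1_sg (s i)) := by
    ext i j
    rw [Matrix.mul_diagonal, Matrix.diagonal_mul, Matrix.submatrix_apply]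
    have h3 : sm1_A (sm1_h h) (fun i => sm1_tw (σ i).1.1 (s i)) i j =
        ∑ o, sm1_W (sm1_h h) (fun i => sm1_tw (σ i).1.1 (s i)) i o * sm1_row i o j := by
      simp [sm1_A, Matrix.of_apply, Finset.sum_apply]
    rw [h3, Fintype.sum_option, Fintype.sum_prod_type]
    have h4 : ∀ k : Fin w, ∑ ε : Bool, sm1_W (sm1_h h) (fun i => sm1_tw (σ i).1.1 (s i)) i
          (some (k, ε)) * sm1_row i (some (k, ε)) j =
        |(NN (σ i).1.1 (σ k).1.1 : ℝ)| * (Pi.single i 1 : Fin w → ℝ) j -
        sm1_sg (s i) * sm1_sg (s k) * (NN (σ i).1.1 (σ k).1.1 : ℝ) *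
          (Pi.single k 1 : Fin w → ℝ) j := by
      intro k
      obtain ⟨p1, p2⟩ := sm1_pair (σ i).1 (σ k).1 (s i) (s k)
      rw [← p1, ← p2, Fintype.sum_bool]
      simp only [sm1_W, sm1_row, Pi.sub_apply, Pi.smul_apply, smul_eq_mul, sm1_sg, if_true]
      simp
      ring
    simp only [h4, Finset.sum_sub_distrib, ← Finset.sum_mul]
    have h5 : ∑ k : Fin w, sm1_sg (s i) * sm1_sg (s k) * (NN (σ i).1.1 (σ k).1.1 : ℝ) *
          (Pi.single k 1 : Fin w → ℝ) j =
        sm1_sg (s i) * sm1_sg (s j) * (NN (σ i).1.1 (σ j).1.1 : ℝ) := by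
      simp [Pi.single_apply]
    have h6 : ∑ k : Fin w, |(NN (σ i).1.1 (σ k).1.1 : ℝ)| =
        ∑ e'' : F, |(NN (σ i).1.1 e''.1.1 : ℝ)| :=
      Fintype.sum_equiv σ _ _ (fun k => rfl)
    rw [h5, h6]
    simp only [sm1_W, sm1_row, AF, Matrix.of_apply, sm1_h_tw, Pi.single_apply]
    by_cases hij : i = j
    · subst hij
      have := sm1_sg_sq (s i)
      simp only [if_true, mul_one]
      linear_combination (-(h (σ i).1 + ∑ e'' : F, |(NN (σ i).1.1 e''.1.1 : ℝ)|)) * this
    · have hji : ¬ j = i := fun h => hij h.symm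
      have hσ : ¬ σ i = σ j := fun h => hij (σ.injective h)
      simp [hji, hσ]
      ring
  rw [hM, Matrix.det_mul, Matrix.det_mul, Matrix.det_submatrix_equiv_self, Matrix.det_diagonal]
  have : (∏ i, sm1_sg (s i)) * (∏ i, sm1_sg (s i)) = 1 := by
    rw [← Finset.prod_mul_distrib]
    exact Finset.prod_eq_one fun i _ => sm1_sg_sq (s i)
  linear_combination (AF F h).det * this

end SM1

/-- BLOCK SM1 -/
theorem detsum_pr (n w : ℕ) (h : E n → ℝ) (hh : ∀ e, 0 ≤ h e) :
    ∑ F ∈ (Finset.univ : Finset (E n)).powersetCard w, (AF F h).det ≤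
      (∑ e, h e + 2 * n * w) ^ w / w.factorial := by
  classical
  have hh' : ∀ z, 0 ≤ sm1_h h z := by
    intro z
    unfold sm1_h
    split_ifs
    · exact hh _
    · exact hh _
    · exact le_rfl
  let α := Σ F : {F : Finset (E n) // F.card = w}, (Fin w ≃ F.1) × (Fin w → Bool)
  let Y : α → Fin w → Fin n × Fin n := fun a i => sm1_tw (a.2.1 i).1.1 (a.2.2 i)
  have hYinj : Function.Injective Y := by
    rintro ⟨⟨F, hF⟩, σ, s⟩ ⟨⟨F', hF'⟩, σ', s'⟩ hY
    have hpt : ∀ i, s i = s' i ∧ (σ i).1 = (σ' i).1 := by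
      intro i
      have h1 : sm1_tw (σ i).1.1 (s i) = sm1_tw (σ' i).1.1 (s' i) := congrFun hY i
      have o1 := (σ i).1.2
      have o2 := (σ' i).1.2
      cases hs : s i <;> cases hs' : s' i
      · simp only [sm1_tw, hs, hs'] at h1
        exact ⟨rfl, Subtype.ext (by simpa using h1)⟩
      · exfalso
        simp only [sm1_tw, hs, hs', if_true, Bool.false_eq_true, if_false] at h1
        rw [h1] at o1
        exact absurd o1 (not_lt.mpr o2.le)
      · exfalso
        simp only [sm1_tw, hs, hs', if_true, Bool.false_eq_true, if_false] at h1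
        rw [← h1] at o2
        exact absurd o2 (not_lt.mpr o1.le)
      · simp only [sm1_tw, hs, hs', if_true] at h1
        refine ⟨rfl, Subtype.ext ?_⟩
        have := Prod.ext_iff.mp h1
        exact Prod.ext this.2 this.1
    have hFF : F = F' := by
      ext e
      constructor
      · intro he
        have := (hpt (σ.symm ⟨e, he⟩)).2
        simp only [Equiv.apply_symm_apply] at this
        rw [this]
        exact (σ' _).2
      · intro he
        have := (hpt (σ'.symm ⟨e, he⟩)).2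
        simp only [Equiv.apply_symm_apply] at this
        rw [← this]
        exact (σ _).2
    subst hFF
    have hσ : σ = σ' := Equiv.ext fun i => Subtype.ext (hpt i).2
    have hs : s = s' := funext fun i => (hpt i).1
    subst hσ
    subst hs
    rfl
  have h1 : ∑ a : α, (sm1_A (sm1_h h) (Y a)).det ≤
      ∑ y : Fin w → Fin n × Fin n, (sm1_A (sm1_h h) y).det := by
    have hmap : ∑ y ∈ (Finset.univ : Finset α).map ⟨Y, hYinj⟩, (sm1_A (sm1_h h) y).det =
        ∑ a : α, (sm1_A (sm1_h h) (Y a)).det := by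
      rw [Finset.sum_map]
      rfl
    rw [← hmap]
    apply Finset.sum_le_sum_of_subset_of_nonneg (Finset.subset_univ _)
    intro y _ _
    exact sm1_A_nonneg _ hh' y
  have h2 : ∑ a : α, (sm1_A (sm1_h h) (Y a)).det =
      (w.factorial * 2 ^ w : ℝ) *
        ∑ F ∈ (Finset.univ : Finset (E n)).powersetCard w, (AF F h).det := by
    rw [Fintype.sum_sigma, Finset.mul_sum]
    rw [Finset.sum_subtype (p := fun F : Finset (E n) => F.card = w)
      ((Finset.univ : Finset (E n)).powersetCard w) (by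
        intro F; simp [Finset.mem_powersetCard])]
    refine Finset.sum_congr rfl fun F _ => ?_
    have e1 : ∀ b : (Fin w ≃ F.1) × (Fin w → Bool),
        (sm1_A (sm1_h h) (Y ⟨F, b⟩)).det = (AF F.1 h).det := by
      intro b
      exact sm1_A_eq h F.1 b.1 b.2
    simp only [e1, Finset.sum_const, nsmul_eq_mul, Finset.card_univ, Fintype.card_prod]
    have hc : Fintype.card (Fin w ≃ F.1) = w.factorial := by
      have := Fintype.card_equiv (Finset.equivFinOfCardEq F.2).symm
      simpa using this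
    rw [hc]
    simp
  have h3 := sm1_total (n := n) (w := w) (sm1_h h) hh'
  rw [sm1_sum_h] at h3
  have h4 : (w.factorial * 2 ^ w : ℝ) *
      ∑ F ∈ (Finset.univ : Finset (E n)).powersetCard w, (AF F h).det ≤
      2 ^ w * (∑ e, h e + 2 * n * w) ^ w := by
    rw [← h2, ← mul_pow]
    refine h1.trans (h3.trans (le_of_eq ?_))
    ring
  rw [le_div_iff₀ (by positivity)]
  have h5 : (0 : ℝ) < 2 ^ w := by positivity
  have : 2 ^ w * ((∑ F ∈ (Finset.univ : Finset (E n)).powersetCard w, (AF F h).det) *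
      (w.factorial : ℝ)) ≤ 2 ^ w * (∑ e, h e + 2 * n * w) ^ w := by
    refine le_trans (le_of_eq ?_) h4
    ring
  exact le_of_mul_le_mul_left this h5

end Pool.Agent.HT
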